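import Mathlib

/-!
Cut-based connectivity of finite vertex sets in a simple graph, and the basic
closure properties used for the connected set density theorem.
-/

namespace Pool.Agent.Y433

open Finset

variable {V : Type*} [DecidableEq V]

/-- `T` is closed in `S`: no edge leaves `T` inside `S`. -/
def Cl (G : SimpleGraph V) (T S : Finset V) : Prop :=
  ∀ a ∈ T, ∀ b ∈ S, G.Adj a b → b ∈ T

/-- `S` is nonempty and no proper nonempty subset is closed in it. -/
def Cn (G : SimpleGraph V) (S : Finset V) : Prop :=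
  S.Nonempty ∧ ∀ T ⊆ S, T.Nonempty → Cl G T S → T = S

variable {G : SimpleGraph V}

theorem cn_singleton (v : V) : Cn G {v} := by
  refine ⟨singleton_nonempty v, ?_⟩
  intro T hT hne _
  exact (Finset.subset_singleton_iff.mp hT).resolve_left hne.ne_empty

theorem Cn.union {S T : Finset V} (hS : Cn G S) (hT : Cn G T) (h : (S ∩ T).Nonempty) :
    Cn G (S ∪ T) := by
  refine ⟨hS.1.mono subset_union_left, ?_⟩
  intro U hU hne hcl
  have key : ∀ (A B : Finset V), Cn G A → Cn G B → (A ∩ B).Nonempty →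
      (∀ a ∈ U, ∀ b ∈ A ∪ B, G.Adj a b → b ∈ U) → (U ∩ A).Nonempty → A ∪ B ⊆ U := by
    intro A B hA hB hAB hc hUA
    have h1 : U ∩ A = A := by
      apply hA.2 _ inter_subset_right hUA
      intro a ha b hb hab
      rw [mem_inter] at ha ⊢
      exact ⟨hc a ha.1 b (mem_union_left _ hb) hab, hb⟩
    have hAU : A ⊆ U := by
      intro x hx
      rw [← h1] at hx
      exact (mem_inter.mp hx).1
    have h2 : U ∩ B = B := by
      apply hB.2 _ inter_subset_right
      · obtain ⟨x, hx⟩ := hAB
        rw [mem_inter] at hx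
        exact ⟨x, mem_inter.mpr ⟨hAU hx.1, hx.2⟩⟩
      · intro a ha b hb hab
        rw [mem_inter] at ha ⊢
        exact ⟨hc a ha.1 b (mem_union_right _ hb) hab, hb⟩
    apply union_subset hAU
    intro x hx
    rw [← h2] at hx
    exact (mem_inter.mp hx).1
  apply Subset.antisymm hU
  obtain ⟨x, hx⟩ := hne
  rcases mem_union.mp (hU hx) with h1 | h1
  · exact key S T hS hT h hcl ⟨x, mem_inter.mpr ⟨hx, h1⟩⟩
  · rw [union_comm]
    refine key T S hT hS (by rwa [inter_comm]) ?_ ⟨x, mem_inter.mpr ⟨hx, h1⟩⟩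
    intro a ha b hb
    rw [union_comm] at hb
    exact hcl a ha b hb

theorem cn_pair {a b : V} (h : G.Adj a b) : Cn G {a, b} := by
  refine ⟨insert_nonempty _ _, ?_⟩
  intro T hT hne hcl
  apply Subset.antisymm hT
  obtain ⟨x, hx⟩ := hne
  have hx' := hT hx
  simp only [mem_insert, mem_singleton] at hx'
  rcases hx' with rfl | rfl
  · have : b ∈ T := hcl _ hx b (by simp) h
    intro y hy
    simp only [mem_insert, mem_singleton] at hy
    rcases hy with rfl | rfl <;> assumption
  · have : a ∈ T := hcl _ hx a (by simp) h.symm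
    intro y hy
    simp only [mem_insert, mem_singleton] at hy
    rcases hy with rfl | rfl <;> assumption

theorem Cn.insert {S : Finset V} (hS : Cn G S) {a v : V} (ha : a ∈ S) (h : G.Adj a v) :
    Cn G (insert v S) := by
  have h1 : Insert.insert v S = ({a, v} : Finset V) ∪ S := by
    ext x
    simp only [mem_insert, mem_union, mem_singleton]
    constructor
    · rintro (rfl | h)
      · exact Or.inl (Or.inr rfl)
      · exact Or.inr h
    · rintro ((rfl | rfl) | h)
      · exact Or.inr ha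
      · exact Or.inl rfl
      · exact Or.inr h
  rw [h1]
  exact (cn_pair h).union hS ⟨a, by simp [ha]⟩

/-- A connected set that is not everything in `S` has an edge out of it inside `S`. -/
theorem Cn.exists_out {S T : Finset V} (hS : Cn G S) (hTS : T ⊆ S) (hT : T.Nonempty)
    (hne : T ≠ S) : ∃ a ∈ T, ∃ b ∈ S, b ∉ T ∧ G.Adj a b := by
  by_contra hcon
  push Not at hcon
  apply hne
  apply hS.2 T hTS hT
  intro a ha b hb hab
  by_contra hbT
  exact hcon a ha b hb hbT hab

/-- Growth: between `S₀ ⊆ S` connected there are connected sets of all sizes. -/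
theorem Cn.grow {S S₀ : Finset V} (hS : Cn G S) (h0 : Cn G S₀) (hsub : S₀ ⊆ S) :
    ∀ k, S₀.card ≤ k → k ≤ S.card → ∃ T, S₀ ⊆ T ∧ T ⊆ S ∧ Cn G T ∧ T.card = k := by
  intro k hk
  induction k, hk using Nat.le_induction with
  | base => intro _; exact ⟨S₀, Subset.refl _, hsub, h0, rfl⟩
  | succ k hk ih =>
    intro hk2
    obtain ⟨T, h1, h2, h3, h4⟩ := ih (by omega)
    have hne : T ≠ S := by rintro rfl; omega
    obtain ⟨a, ha, b, hb, hbT, hab⟩ := hS.exists_out h2 h3.1 hne
    refine ⟨Insert.insert b T, h1.trans (subset_insert _ _), ?_, h3.insert ha hab, ?_⟩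
    · exact insert_subset hb h2
    · rw [card_insert_of_notMem hbT, h4]

/-- There is a non-cut vertex different from a given one. -/
theorem Cn.exists_erase {C : Finset V} (hC : Cn G C) {v : V} (hv : v ∈ C) (h2 : 2 ≤ C.card) :
    ∃ z ∈ C, z ≠ v ∧ Cn G (C.erase z) := by
  obtain ⟨T, h1, h2', h3, h4⟩ := hC.grow (cn_singleton v) (singleton_subset_iff.mpr hv)
    (C.card - 1) (by simp; omega) (by omega)
  have hvT : v ∈ T := h1 (mem_singleton_self v)
  have hlt : T.card < C.card := by omega
  obtain ⟨z, hz, hzT⟩ := exists_mem_notMem_of_card_lt_card hlt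
  refine ⟨z, hz, ?_, ?_⟩
  · rintro rfl; exact hzT hvT
  · have : T = C.erase z := by
      apply eq_of_subset_of_card_le
      · intro x hx
        rw [mem_erase]
        exact ⟨by rintro rfl; exact hzT hx, h2' hx⟩
      · rw [card_erase_of_mem hz, h4]
    rwa [← this]

/-- The component of `v` in `S`. -/
noncomputable def Comp (G : SimpleGraph V) (S : Finset V) (v : V) : Finset V := by
  classical
  exact (S.powerset.filter (fun T => v ∈ T ∧ Cn G T)).sup id

theorem mem_Comp {S : Finset V} {v x : V} :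
    x ∈ Comp G S v ↔ ∃ T ⊆ S, v ∈ T ∧ Cn G T ∧ x ∈ T := by
  classical
  unfold Comp
  simp only [Finset.mem_sup, mem_filter, mem_powerset, id]
  constructor
  · rintro ⟨T, ⟨h1, h2, h3⟩, h4⟩; exact ⟨T, h1, h2, h3, h4⟩
  · rintro ⟨T, h1, h2, h3, h4⟩; exact ⟨T, ⟨h1, h2, h3⟩, h4⟩

theorem Comp_subset {S : Finset V} {v : V} : Comp G S v ⊆ S := by
  intro x hx
  obtain ⟨T, h1, _, _, h4⟩ := mem_Comp.mp hx
  exact h1 h4

theorem self_mem_Comp {S : Finset V} {v : V} (hv : v ∈ S) : v ∈ Comp G S v :=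
  mem_Comp.mpr ⟨{v}, singleton_subset_iff.mpr hv, mem_singleton_self v, cn_singleton v,
    mem_singleton_self v⟩

theorem Comp_cn {S : Finset V} {v : V} (hv : v ∈ S) : Cn G (Comp G S v) := by
  refine ⟨⟨v, self_mem_Comp hv⟩, ?_⟩
  intro U hU hne hcl
  apply Subset.antisymm hU
  -- `v` lies in `U`
  have hvU : v ∈ U := by
    obtain ⟨x, hx⟩ := hne
    obtain ⟨T, h1, h2, h3, h4⟩ := mem_Comp.mp (hU hx)
    have : U ∩ T = T := by
      apply h3.2 _ inter_subset_right ⟨x, mem_inter.mpr ⟨hx, h4⟩⟩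
      intro a ha b hb hab
      rw [mem_inter] at ha ⊢
      exact ⟨hcl a ha.1 b (mem_Comp.mpr ⟨T, h1, h2, h3, hb⟩) hab, hb⟩
    rw [← this] at h2
    exact (mem_inter.mp h2).1
  intro x hx
  obtain ⟨T, h1, h2, h3, h4⟩ := mem_Comp.mp hx
  have : U ∩ T = T := by
    apply h3.2 _ inter_subset_right ⟨v, mem_inter.mpr ⟨hvU, h2⟩⟩
    intro a ha b hb hab
    rw [mem_inter] at ha ⊢
    exact ⟨hcl a ha.1 b (mem_Comp.mpr ⟨T, h1, h2, h3, hb⟩) hab, hb⟩
  rw [← this] at h4
  exact (mem_inter.mp h4).1

theorem Comp_cl {S : Finset V} {v : V} : Cl G (Comp G S v) S := by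
  intro a ha b hb hab
  obtain ⟨T, h1, h2, h3, h4⟩ := mem_Comp.mp ha
  exact mem_Comp.mpr ⟨Insert.insert b T, insert_subset hb h1, mem_insert_of_mem h2,
    h3.insert h4 hab, mem_insert_self _ _⟩

theorem subset_Comp {S T : Finset V} {v : V} (h1 : T ⊆ S) (h2 : v ∈ T) (h3 : Cn G T) :
    T ⊆ Comp G S v := fun _ hx => mem_Comp.mpr ⟨T, h1, h2, h3, hx⟩

/-- Agreement with Mathlib's notion of connectedness of the induced subgraph. -/
theorem cn_iff (S : Finset V) : Cn G S ↔ (G.induce (S : Set V)).Connected := by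
  classical
  constructor
  · rintro ⟨⟨v, hv⟩, h⟩
    have hv' : v ∈ (S : Set V) := hv
    let T : Finset V := S.filter (fun w => ∃ hw : w ∈ (S : Set V),
      (G.induce (S : Set V)).Reachable ⟨v, hv'⟩ ⟨w, hw⟩)
    have hT : T = S := by
      apply h T (filter_subset _ _)
      · exact ⟨v, mem_filter.mpr ⟨hv, hv', SimpleGraph.Reachable.refl _⟩⟩
      · intro a ha b hb hab
        rw [mem_filter] at ha ⊢
        obtain ⟨_, ha1, ha2⟩ := ha
        refine ⟨hb, hb, ha2.trans ?_⟩
        apply SimpleGraph.Adj.reachable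
        exact hab
    have hpre : (G.induce (S : Set V)).Preconnected := by
      have key : ∀ x : (S : Set V), (G.induce (S : Set V)).Reachable ⟨v, hv'⟩ x := by
        rintro ⟨x, hx⟩
        have hx2 : x ∈ T := by rw [hT]; exact hx
        obtain ⟨_, _, h2⟩ := mem_filter.mp hx2
        exact h2
      intro x y
      exact (key x).symm.trans (key y)
    have : Nonempty (S : Set V) := ⟨⟨v, hv'⟩⟩
    exact SimpleGraph.Connected.mk hpre
  · intro hc
    obtain ⟨⟨v, hv⟩⟩ := hc.nonempty
    refine ⟨⟨v, hv⟩, ?_⟩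
    intro T hTS hne hcl
    apply Subset.antisymm hTS
    obtain ⟨a, ha⟩ := hne
    have haS : a ∈ (S : Set V) := hTS ha
    intro b hb
    have hbS : b ∈ (S : Set V) := hb
    obtain ⟨p⟩ := hc.preconnected ⟨a, haS⟩ ⟨b, hbS⟩
    have key : ∀ (x y : (S : Set V)) (_ : (G.induce (S : Set V)).Walk x y),
        (x : V) ∈ T → (y : V) ∈ T := by
      intro x y p
      induction p with
      | nil => exact id
      | @cons x y z hxy _ ih =>
        intro hx
        apply ih
        exact hcl _ hx _ y.2 hxy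
    exact key _ _ p ha

end Pool.Agent.Y433
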