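import Pool.Agent.Y433.Local

/-!
Double counting over all connected sets: twice the sum of the sizes of the
connected sets is at least `n N + n` when all degrees are at least three.
-/

namespace Pool.Agent.Y433

open Finset
open scoped Classical

variable {V : Type*} [Fintype V] [DecidableEq V]

/-- The family of connected sets. -/
noncomputable def CC (G : SimpleGraph V) : Finset (Finset V) := univ.filter (Cn G)

/-- The outside neighbours of a set. -/
noncomputable def bd (G : SimpleGraph V) (S : Finset V) : Finset V :=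
  univ.filter (fun v => v ∉ S ∧ ∃ a ∈ S, G.Adj a v)

/-- The vertices that are neither in the set nor adjacent to it. -/
noncomputable def rest (G : SimpleGraph V) (S : Finset V) : Finset V :=
  univ.filter (fun v => v ∉ S ∧ ¬ ∃ a ∈ S, G.Adj a v)

variable {G : SimpleGraph V}

omit [DecidableEq V] in
theorem mem_CC {S : Finset V} : S ∈ CC G ↔ Cn G S := by simp [CC]

theorem mem_bd {S : Finset V} {v : V} : v ∈ bd G S ↔ v ∉ S ∧ ∃ a ∈ S, G.Adj a v := by
  simp [bd]

theorem mem_rest {S : Finset V} {v : V} : v ∈ rest G S ↔ v ∉ S ∧ ¬ ∃ a ∈ S, G.Adj a v := by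
  simp [rest]

theorem card_split (S : Finset V) :
    S.card + (bd G S).card + (rest G S).card = Fintype.card V := by
  have h1 : Disjoint S (bd G S) := by
    rw [disjoint_left]
    intro x hx h
    exact (mem_bd.mp h).1 hx
  have h2 : Disjoint (S ∪ bd G S) (rest G S) := by
    rw [disjoint_left]
    intro x hx h
    rw [mem_rest] at h
    rcases mem_union.mp hx with hx | hx
    · exact h.1 hx
    · exact h.2 (mem_bd.mp hx).2
  rw [← card_union_of_disjoint h1, ← card_union_of_disjoint h2, ← card_univ]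
  congr 1
  ext x
  simp only [mem_union, mem_bd, mem_rest, mem_univ, iff_true]
  by_cases h3 : x ∈ S
  · exact Or.inl (Or.inl h3)
  · by_cases h4 : ∃ a ∈ S, G.Adj a x
    · exact Or.inl (Or.inr ⟨h3, h4⟩)
    · exact Or.inr ⟨h3, h4⟩

/-- Pairs (connected set, element). -/
noncomputable def PE (G : SimpleGraph V) : Finset (Finset V × V) :=
  (CC G ×ˢ univ).filter (fun p => p.2 ∈ p.1)

/-- Pairs (connected set, outside neighbour). -/
noncomputable def PB (G : SimpleGraph V) : Finset (Finset V × V) :=
  (CC G ×ˢ univ).filter (fun p => p.2 ∈ bd G p.1)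

/-- Pairs (connected set, cut vertex). -/
noncomputable def PK (G : SimpleGraph V) : Finset (Finset V × V) :=
  (CC G ×ˢ univ).filter (fun p => p.2 ∈ p.1 ∧ (p.1.erase p.2).Nonempty ∧
    ¬ Cn G (p.1.erase p.2))

theorem card_PE : (PE G).card = ∑ S ∈ CC G, S.card := by
  unfold PE
  rw [card_filter, sum_product]
  apply sum_congr rfl
  intro S _
  rw [← card_filter]
  congr 1
  ext x
  simp

theorem card_PB : (PB G).card = ∑ S ∈ CC G, (bd G S).card := by
  unfold PB
  rw [card_filter, sum_product]
  apply sum_congr rfl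
  intro S _
  rw [← card_filter]
  congr 1
  ext x
  simp

theorem card_PB_eq :
    (PB G).card = ((PE G).filter (fun p => Cn G (p.1.erase p.2))).card := by
  apply card_nbij' (fun p => (Insert.insert p.2 p.1, p.2)) (fun p => (p.1.erase p.2, p.2))
  · rintro ⟨S, v⟩ hp
    simp only [PB, coe_filter, mem_product, mem_univ, and_true, Set.mem_ofPred_eq, mem_CC,
      mem_bd] at hp
    obtain ⟨h1, h2, a, ha, hav⟩ := hp
    simp only [PE, coe_filter, mem_filter, mem_product, mem_univ, and_true, Set.mem_ofPred_eq,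
      mem_CC, mem_insert_self]
    refine ⟨h1.insert ha hav, ?_⟩
    rw [erase_insert h2]
    exact h1
  · rintro ⟨S, v⟩ hp
    simp only [PE, coe_filter, mem_filter, mem_product, mem_univ, and_true, Set.mem_ofPred_eq,
      mem_CC] at hp
    obtain ⟨⟨h1, h2⟩, h3⟩ := hp
    simp only [PB, coe_filter, mem_product, mem_univ, and_true, Set.mem_ofPred_eq, mem_CC,
      mem_bd]
    refine ⟨h3, notMem_erase _ _, ?_⟩
    have hne : S.erase v ≠ S := by
      intro h
      have h4 := notMem_erase v S
      rw [h] at h4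
      exact h4 h2
    obtain ⟨a, ha, b, hb, hbn, hab⟩ := h1.exists_out (erase_subset _ _) h3.1 hne
    have hbv : b = v := by
      by_contra hbv
      exact hbn (mem_erase.mpr ⟨hbv, hb⟩)
    exact ⟨a, ha, hbv ▸ hab⟩
  · rintro ⟨S, v⟩ hp
    simp only [PB, coe_filter, mem_product, mem_univ, and_true, Set.mem_ofPred_eq, mem_CC,
      mem_bd] at hp
    simp only [erase_insert hp.2.1]
  · rintro ⟨S, v⟩ hp
    simp only [PE, coe_filter, mem_filter, mem_product, mem_univ, and_true, Set.mem_ofPred_eq,
      mem_CC] at hp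
    simp only [insert_erase hp.1.2]

theorem card_PE_eq : (PE G).card = (PB G).card + Fintype.card V + (PK G).card := by
  have h1 : (PE G).card = ((PE G).filter (fun p => Cn G (p.1.erase p.2))).card +
      ((PE G).filter (fun p => ¬ Cn G (p.1.erase p.2))).card :=
    (card_filter_add_card_filter_not _).symm
  have h2 : (PE G).filter (fun p => ¬ Cn G (p.1.erase p.2)) =
      (univ.image (fun v : V => (({v} : Finset V), v))) ∪ PK G := by
    ext ⟨S, v⟩
    simp only [PE, PK, mem_filter, mem_product, mem_univ, and_true, mem_CC, mem_union,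
      mem_image, true_and, Prod.mk.injEq]
    constructor
    · rintro ⟨⟨h1, h2⟩, h3⟩
      rcases (S.erase v).eq_empty_or_nonempty with h4 | h4
      · left
        refine ⟨v, ?_, rfl⟩
        rw [erase_eq_empty_iff] at h4
        rcases h4 with h4 | h4
        · rw [h4] at h2
          simp at h2
        · exact h4.symm
      · exact Or.inr ⟨h1, h2, h4, h3⟩
    · rintro (⟨w, h1, h2⟩ | ⟨h1, h2, h3, h4⟩)
      · subst h2
        subst h1
        refine ⟨⟨cn_singleton w, mem_singleton_self w⟩, ?_⟩
        intro h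
        have := h.1
        simp at this
      · exact ⟨⟨h1, h2⟩, h4⟩
  have h3 : Disjoint (univ.image (fun v : V => (({v} : Finset V), v))) (PK G) := by
    rw [disjoint_left]
    rintro ⟨S, v⟩ h4 h5
    simp only [mem_image, mem_univ, true_and, Prod.mk.injEq] at h4
    obtain ⟨w, h6, h7⟩ := h4
    subst h7
    subst h6
    simp [PK] at h5
  rw [h1, h2, card_union_of_disjoint h3, ← card_PB_eq, card_image_of_injective, card_univ]
  · ring
  · intro a b h
    exact congrArg Prod.snd h

/-- The exact identity. -/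
theorem identity :
    2 * ∑ S ∈ CC G, S.card + ∑ S ∈ CC G, (rest G S).card =
      Fintype.card V * (CC G).card + Fintype.card V + (PK G).card := by
  have h1 : ∑ S ∈ CC G, S.card + ∑ S ∈ CC G, (bd G S).card + ∑ S ∈ CC G, (rest G S).card =
      Fintype.card V * (CC G).card := by
    rw [← sum_add_distrib, ← sum_add_distrib]
    rw [sum_congr rfl (fun S _ => card_split S)]
    rw [sum_const, smul_eq_mul, mul_comm]
  have h2 := card_PE_eq (G := G)
  rw [card_PE, card_PB] at h2
  omega

/-- Triples: two non-touching connected sets with a common outside neighbour. -/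
noncomputable def TR (G : SimpleGraph V) : Finset (Finset V × Finset V × V) :=
  (CC G ×ˢ (CC G ×ˢ univ)).filter
    (fun p => p.2.1 ⊆ rest G p.1 ∧ p.2.2 ∈ bd G p.1 ∧ ∃ a ∈ p.2.1, G.Adj a p.2.2)

theorem mem_TR {S C : Finset V} {w : V} :
    (S, C, w) ∈ TR G ↔ Cn G S ∧ Cn G C ∧ C ⊆ rest G S ∧ w ∈ bd G S ∧ ∃ a ∈ C, G.Adj a w := by
  simp only [TR, mem_filter, mem_product, mem_univ, and_true, mem_CC]
  tauto

theorem not_adj_of_rest {S C : Finset V} (h : C ⊆ rest G S) {a b : V} (ha : a ∈ S)
    (hb : b ∈ C) : ¬ G.Adj a b := fun hab => (mem_rest.mp (h hb)).2 ⟨a, ha, hab⟩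

theorem map_mem_PK {S C : Finset V} {w : V} (h : (S, C, w) ∈ TR G) :
    (Insert.insert w (S ∪ C), w) ∈ PK G := by
  obtain ⟨h1, h2, h3, h4, a, ha, haw⟩ := mem_TR.mp h
  obtain ⟨hwS, b, hb, hbw⟩ := mem_bd.mp h4
  have hwC : w ∉ C := fun hw => (mem_rest.mp (h3 hw)).2 ⟨b, hb, hbw⟩
  have hw : w ∉ S ∪ C := by
    rw [mem_union]
    tauto
  simp only [PK, mem_filter, mem_product, mem_univ, and_true, mem_CC, mem_insert_self, true_and]
  rw [erase_insert hw]
  refine ⟨?_, h1.1.mono subset_union_left, ?_⟩
  · have e1 : Insert.insert w (S ∪ C) = Insert.insert w S ∪ Insert.insert w C := by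
      ext x
      simp only [mem_insert, mem_union]
      tauto
    rw [e1]
    apply (h1.insert hb hbw).union (h2.insert ha haw)
    exact ⟨w, mem_inter.mpr ⟨mem_insert_self _ _, mem_insert_self _ _⟩⟩
  · intro hcn
    have : S = S ∪ C := by
      apply hcn.2 S subset_union_left h1.1
      intro x hx y hy hxy
      rcases mem_union.mp hy with hy | hy
      · exact hy
      · exact absurd hxy (not_adj_of_rest h3 hx hy)
    obtain ⟨c, hc⟩ := h2.1
    have hcS : c ∈ S := by
      rw [this]
      exact mem_union_right _ hc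
    exact (mem_rest.mp (h3 hc)).1 hcS

theorem fibre {S C S' C' : Finset V} {w : V} (h : (S, C, w) ∈ TR G)
    (h' : (S', C', w) ∈ TR G) (heq : S ∪ C = S' ∪ C') :
    (S' = S ∧ C' = C) ∨ (S' = C ∧ C' = S) := by
  obtain ⟨h1, h2, h3, -, -⟩ := mem_TR.mp h
  obtain ⟨h1', h2', h3', -, -⟩ := mem_TR.mp h'
  have dSC : ∀ x ∈ C, x ∉ S := fun x hx => (mem_rest.mp (h3 hx)).1
  have dSC' : ∀ x ∈ C', x ∉ S' := fun x hx => (mem_rest.mp (h3' hx)).1
  -- general comparison
  have key : ∀ A B A' B' : Finset V, Cn G A → Cn G A' → A ∪ B = A' ∪ B' →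
      (∀ a ∈ A, ∀ b ∈ B, ¬ G.Adj a b) → (∀ a ∈ A', ∀ b ∈ B', ¬ G.Adj a b) →
      (A' ∩ A).Nonempty → A' = A := by
    intro A B A' B' hA hA' he hAB hAB' hne
    have e1 : A' ∩ A = A' := by
      apply hA'.2 _ inter_subset_left hne
      intro a ha b hb hab
      rw [mem_inter] at ha ⊢
      refine ⟨hb, ?_⟩
      have hb2 : b ∈ A ∪ B := by rw [he]; exact mem_union_left _ hb
      rcases mem_union.mp hb2 with hb2 | hb2
      · exact hb2
      · exact absurd hab (hAB a ha.2 b hb2)
    have e2 : A' ∩ A = A := by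
      apply hA.2 _ inter_subset_right hne
      intro a ha b hb hab
      rw [mem_inter] at ha ⊢
      refine ⟨?_, hb⟩
      have hb2 : b ∈ A' ∪ B' := by rw [← he]; exact mem_union_left _ hb
      rcases mem_union.mp hb2 with hb2 | hb2
      · exact hb2
      · exact absurd hab (hAB' a ha.1 b hb2)
    rw [← e1, e2]
  obtain ⟨x, hx⟩ := h1'.1
  have hx2 : x ∈ S ∪ C := by rw [heq]; exact mem_union_left _ hx
  have n1 : ∀ a ∈ S, ∀ b ∈ C, ¬ G.Adj a b := fun a ha b hb => not_adj_of_rest h3 ha hb
  have n1' : ∀ a ∈ S', ∀ b ∈ C', ¬ G.Adj a b := fun a ha b hb => not_adj_of_rest h3' ha hb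
  rcases mem_union.mp hx2 with hx2 | hx2
  · left
    have e : S' = S := key S C S' C' h1 h1' heq n1 n1' ⟨x, mem_inter.mpr ⟨hx, hx2⟩⟩
    refine ⟨e, ?_⟩
    subst e
    ext y
    constructor
    · intro hy
      have : y ∈ S' ∪ C := by rw [heq]; exact mem_union_right _ hy
      exact (mem_union.mp this).resolve_left (dSC' y hy)
    · intro hy
      have : y ∈ S' ∪ C' := by rw [← heq]; exact mem_union_right _ hy
      exact (mem_union.mp this).resolve_left (dSC y hy)
  · right
    have e : S' = C := by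
      apply key C S S' C' h2 h1' (by rw [union_comm]; exact heq) _ n1'
        ⟨x, mem_inter.mpr ⟨hx, hx2⟩⟩
      intro a ha b hb hab
      exact n1 b hb a ha hab.symm
    refine ⟨e, ?_⟩
    subst e
    ext y
    constructor
    · intro hy
      have : y ∈ S ∪ S' := by rw [heq]; exact mem_union_right _ hy
      exact (mem_union.mp this).resolve_right (dSC' y hy)
    · intro hy
      have : y ∈ S' ∪ C' := by rw [← heq]; exact mem_union_left _ hy
      exact (mem_union.mp this).resolve_left (fun h => dSC y h hy)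

theorem TR_le : (TR G).card ≤ 2 * (PK G).card := by
  let f : Finset V × Finset V × V → Finset V × V :=
    fun p => (Insert.insert p.2.2 (p.1 ∪ p.2.1), p.2.2)
  have h1 : (TR G).card ≤ 2 * ((TR G).image f).card := by
    apply card_le_mul_card_image
    intro b hb
    rw [mem_image] at hb
    obtain ⟨⟨S, C, w⟩, hp, rfl⟩ := hb
    have hsub : (TR G).filter (fun a => f a = f (S, C, w)) ⊆ {(S, C, w), (C, S, w)} := by
      rintro ⟨S', C', w'⟩ hq
      rw [mem_filter] at hq
      obtain ⟨hq1, hq2⟩ := hq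
      simp only [f, Prod.mk.injEq] at hq2
      obtain ⟨hq2, hq3⟩ := hq2
      subst hq3
      have hw : ∀ S C : Finset V, (S, C, w') ∈ TR G → w' ∉ S ∪ C := by
        intro S C h
        obtain ⟨h1, h2, h3, h4, a, ha, haw⟩ := mem_TR.mp h
        obtain ⟨hwS, b, hb, hbw⟩ := mem_bd.mp h4
        have hwC : w' ∉ C := fun hw => (mem_rest.mp (h3 hw)).2 ⟨b, hb, hbw⟩
        rw [mem_union]
        tauto
      have heq : S ∪ C = S' ∪ C' := by
        rw [← erase_insert (hw S C hp), ← erase_insert (hw S' C' hq1), hq2]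
      rcases fibre hp hq1 heq with ⟨e1, e2⟩ | ⟨e1, e2⟩
      · simp [e1, e2]
      · simp [e1, e2]
    exact (card_le_card hsub).trans card_le_two
  have h2 : (TR G).image f ⊆ PK G := by
    intro q hq
    rw [mem_image] at hq
    obtain ⟨⟨S, C, w⟩, hp, rfl⟩ := hq
    exact map_mem_PK hp
  have := card_le_card h2
  omega

theorem rest_le (hG : Cn G univ) (hdeg : ∀ v, 3 ≤ (univ.filter (fun w => G.Adj v w)).card)
    {S : Finset V} (hS : Cn G S) :
    2 * (rest G S).card ≤ (PR G (rest G S) (bd G S)).card := by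
  have hcl : ∀ a ∈ rest G S, ∀ b, G.Adj a b → b ∈ rest G S ∨ b ∈ bd G S := by
    intro a ha b hab
    rw [mem_rest] at ha ⊢
    rw [mem_bd]
    have hbS : b ∉ S := fun hb => ha.2 ⟨b, hb, hab.symm⟩
    tauto
  apply local_bound _ _ rfl hcl
  · intro T hT hne hTcl
    have hTne : T ≠ univ := by
      rintro rfl
      obtain ⟨s, hs⟩ := hS.1
      exact (mem_rest.mp (hT (mem_univ s))).1 hs
    obtain ⟨a, ha, b, _, hbT, hab⟩ := hG.exists_out (subset_univ T) hne hTne
    refine ⟨a, ha, b, ?_, hab⟩
    rcases hcl a (hT ha) b hab with h | h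
    · exact absurd (hTcl a ha b h hab) hbT
    · exact h
  · intro u hu
    apply (hdeg u).trans
    apply card_le_card
    intro w hw
    rw [mem_filter] at hw ⊢
    refine ⟨?_, hw.2⟩
    rw [mem_union]
    exact hcl u hu w hw.2

theorem sum_rest_le (hG : Cn G univ)
    (hdeg : ∀ v, 3 ≤ (univ.filter (fun w => G.Adj v w)).card) :
    2 * ∑ S ∈ CC G, (rest G S).card ≤ (TR G).card := by
  have h1 : (TR G).card = ∑ S ∈ CC G, (PR G (rest G S) (bd G S)).card := by
    unfold TR
    rw [card_filter, sum_product]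
    apply sum_congr rfl
    intro S _
    rw [← card_filter]
    congr 1
    ext ⟨C, w⟩
    rw [mem_filter, mem_product, mem_CC, mem_PR]
    simp only [mem_univ, and_true]
    tauto
  rw [h1, mul_sum]
  apply sum_le_sum
  intro S hS
  exact rest_le hG hdeg (mem_CC.mp hS)

/-- The main inequality. -/
theorem main_ineq (hG : Cn G univ)
    (hdeg : ∀ v, 3 ≤ (univ.filter (fun w => G.Adj v w)).card) :
    Fintype.card V * (CC G).card + Fintype.card V ≤ 2 * ∑ S ∈ CC G, S.card := by
  have h1 := identity (G := G)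
  have h2 := TR_le (G := G)
  have h3 := sum_rest_le hG hdeg
  omega

end Pool.Agent.Y433
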