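import Pool.Agent.Y433.Conn

/-!
The local inequality: a component `D` of the part of the graph not touched by a
connected set carries at least `2 |D|` pairs (connected subset, outside neighbour).
-/

namespace Pool.Agent.Y433

open Finset
open scoped Classical

variable {V : Type*} [DecidableEq V] {G : SimpleGraph V}

/-- Connected subsets of `D` containing `v`. -/
noncomputable def CS (G : SimpleGraph V) (D : Finset V) (v : V) : Finset (Finset V) :=
  D.powerset.filter (fun C => v ∈ C ∧ Cn G C)

theorem mem_CS {D : Finset V} {v : V} {C : Finset V} :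
    C ∈ CS G D v ↔ C ⊆ D ∧ v ∈ C ∧ Cn G C := by
  unfold CS
  rw [mem_filter, mem_powerset]

theorem Icc_subset_image {D : Finset V} {v : V} (hD : Cn G D) (hv : v ∈ D) :
    Finset.Icc 1 D.card ⊆ (CS G D v).image card := by
  intro k hk
  rw [Finset.mem_Icc] at hk
  obtain ⟨T, h1, h2, h3, h4⟩ := hD.grow (cn_singleton v) (singleton_subset_iff.mpr hv) k
    (by simpa using hk.1) hk.2
  rw [mem_image]
  exact ⟨T, mem_CS.mpr ⟨h2, h1 (mem_singleton_self v), h3⟩, h4⟩

theorem card_le_CS {D : Finset V} {v : V} (hD : Cn G D) (hv : v ∈ D) :
    D.card ≤ (CS G D v).card := by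
  calc D.card = (Finset.Icc 1 D.card).card := by simp
    _ ≤ ((CS G D v).image card).card := card_le_card (Icc_subset_image hD hv)
    _ ≤ (CS G D v).card := card_image_le

theorem card_lt_CS {D : Finset V} {v p q : V} (hD : Cn G D) (hv : v ∈ D) (hp : p ∈ D)
    (hq : q ∈ D) (hpq : p ≠ q) (hvp : G.Adj v p) (hvq : G.Adj v q) :
    D.card + 1 ≤ (CS G D v).card := by
  have h1 : D.card ≤ ((CS G D v).image card).card := by
    calc D.card = (Finset.Icc 1 D.card).card := by simp
      _ ≤ ((CS G D v).image card).card := card_le_card (Icc_subset_image hD hv)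
  have h2 : ((CS G D v).image card).card < (CS G D v).card := by
    apply lt_of_le_of_ne card_image_le
    intro h
    have hinj := card_image_iff.mp h
    have hp' : ({v, p} : Finset V) ∈ CS G D v := by
      rw [mem_CS]
      refine ⟨?_, by simp, cn_pair hvp⟩
      intro x hx
      simp only [mem_insert, mem_singleton] at hx
      rcases hx with rfl | rfl <;> assumption
    have hq' : ({v, q} : Finset V) ∈ CS G D v := by
      rw [mem_CS]
      refine ⟨?_, by simp, cn_pair hvq⟩
      intro x hx
      simp only [mem_insert, mem_singleton] at hx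
      rcases hx with rfl | rfl <;> assumption
    have h3 : ({v, p} : Finset V) = {v, q} := by
      apply hinj hp' hq'
      rw [card_pair hvp.ne, card_pair hvq.ne]
    have h4 : p ∈ ({v, q} : Finset V) := by rw [← h3]; simp
    simp only [mem_insert, mem_singleton] at h4
    rcases h4 with h4 | h4
    · exact hvp.ne h4.symm
    · exact hpq h4
  omega

/-- The two disjoint families. -/
theorem two_families {D : Finset V} {v : V} (hD : Cn G D) (hv : v ∈ D)
    (hdeg : ∀ u ∈ D, 2 ≤ (D.filter (fun w => G.Adj u w)).card)
    (hcond : (∀ u ∈ D, u ≠ v → 3 ≤ (D.filter (fun w => G.Adj u w)).card) ∨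
      ¬ Cn G (D.erase v)) :
    2 * D.card ≤ (CS G D v).card := by
  -- the family `L`
  let L : V → Finset V := fun u => if u = v then D else Comp G (D.erase u) v
  have hLv : L v = D := by simp [L]
  have hLu : ∀ u, u ≠ v → L u = Comp G (D.erase u) v := by
    intro u hu; simp [L, hu]
  have hLmem : ∀ u ∈ D, L u ∈ CS G D v := by
    intro u hu
    by_cases huv : u = v
    · rw [huv, hLv, mem_CS]
      exact ⟨Subset.refl _, hv, hD⟩
    · rw [hLu u huv, mem_CS]
      have hv' : v ∈ D.erase u := mem_erase.mpr ⟨fun h => huv h.symm, hv⟩
      exact ⟨Comp_subset.trans (erase_subset _ _), self_mem_Comp hv', Comp_cn hv'⟩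
  have hLnot : ∀ u, u ≠ v → u ∉ L u := by
    intro u hu h
    rw [hLu u hu] at h
    exact notMem_erase u D (Comp_subset h)
  -- an edge leaving `L u` inside `D` ends at `u`
  have hLout : ∀ u, u ≠ v → ∀ a ∈ L u, ∀ b ∈ D, b ∉ L u → G.Adj a b → b = u := by
    intro u hu a ha b hb hbn hab
    by_contra hbu
    apply hbn
    rw [hLu u hu] at ha ⊢
    exact Comp_cl a ha b (mem_erase.mpr ⟨hbu, hb⟩) hab
  have hLinj : Set.InjOn L D := by
    have key : ∀ u ∈ D, ∀ u' ∈ D, u ≠ v → u' ≠ v → L u = L u' → u = u' := by
      intro u hu u' hu' h1 h2 h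
      have hne : L u ≠ D := by
        intro h3
        exact hLnot u h1 (h3 ▸ hu)
      obtain ⟨h3, h4, h5⟩ := mem_CS.mp (hLmem u hu)
      obtain ⟨a, ha, b, hb, hbn, hab⟩ := hD.exists_out h3 h5.1 hne
      have e1 := hLout u h1 a ha b hb hbn hab
      rw [h] at ha hbn
      have e2 := hLout u' h2 a ha b hb hbn hab
      rw [← e1, ← e2]
    intro u hu u' hu' h
    rw [mem_coe] at hu hu'
    by_cases h1 : u = v
    · by_cases h2 : u' = v
      · rw [h1, h2]
      · exfalso
        apply hLnot u' h2
        rw [← h, h1, hLv]
        exact hu'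
    · by_cases h2 : u' = v
      · exfalso
        apply hLnot u h1
        rw [h, h2, hLv]
        exact hu
      · exact key u hu u' hu' h1 h2 h
  -- the family `P`
  have hPex : ∀ u ∈ D, ∃ C, (C ∈ CS G D v ∧ u ∈ C) ∧
      ∀ C', C' ∈ CS G D v → u ∈ C' → C.card ≤ C'.card := by
    intro u hu
    obtain ⟨C, hC1, hC2⟩ := exists_min_image ((CS G D v).filter (fun C => u ∈ C)) card
      ⟨D, mem_filter.mpr ⟨mem_CS.mpr ⟨Subset.refl _, hv, hD⟩, hu⟩⟩
    rw [mem_filter] at hC1
    refine ⟨C, hC1, ?_⟩
    intro C' h1 h2
    exact hC2 C' (mem_filter.mpr ⟨h1, h2⟩)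
  choose! P hP1 hP2 using hPex
  have hPmem : ∀ u ∈ D, P u ∈ CS G D v := fun u hu => (hP1 u hu).1
  -- minimality: removing `z` keeps it connected only if `z = v` or `z = u`
  have hPmin : ∀ u ∈ D, ∀ z ∈ P u, z ≠ v → Cn G ((P u).erase z) → z = u := by
    intro u hu z hz hzv hcn
    by_contra hzu
    obtain ⟨h3, h4, h5⟩ := mem_CS.mp (hPmem u hu)
    have hm : (P u).erase z ∈ CS G D v := by
      rw [mem_CS]
      exact ⟨(erase_subset _ _).trans h3, mem_erase.mpr ⟨fun h => hzv h.symm, h4⟩, hcn⟩
    have := hP2 u hu _ hm (mem_erase.mpr ⟨fun h => hzu h.symm, (hP1 u hu).2⟩)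
    have hlt := card_erase_lt_of_mem hz
    omega
  have hPinj : Set.InjOn P D := by
    intro u hu u' hu' h
    rw [mem_coe] at hu hu'
    by_contra hne
    have hu1 : u ∈ P u := (hP1 u hu).2
    have hu2 : u' ∈ P u := by rw [h]; exact (hP1 u' hu').2
    have hcard : 2 ≤ (P u).card := by
      have : ({u, u'} : Finset V) ⊆ P u := by
        intro x hx
        simp only [mem_insert, mem_singleton] at hx
        rcases hx with rfl | rfl <;> assumption
      calc 2 = ({u, u'} : Finset V).card := (card_pair hne).symm
        _ ≤ _ := card_le_card this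
    obtain ⟨h3, h4, h5⟩ := mem_CS.mp (hPmem u hu)
    obtain ⟨z, hz, hzv, hcn⟩ := h5.exists_erase h4 hcard
    have e1 := hPmin u hu z hz hzv hcn
    rw [h] at hz hcn
    have e2 := hPmin u' hu' z hz hzv hcn
    exact hne (e1.symm.trans e2)
  -- disjointness
  have hdisj : ∀ u ∈ D, ∀ u' ∈ D, P u ≠ L u' := by
    intro u hu u' hu' h
    obtain ⟨h3, h4, h5⟩ := mem_CS.mp (hPmem u hu)
    by_cases huv : u = v
    · -- `P v = {v}`
      have hsing : P u = {v} := by
        have hle : (P u).card ≤ ({v} : Finset V).card := by
          apply hP2 u hu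
          · rw [mem_CS]
            exact ⟨singleton_subset_iff.mpr hv, mem_singleton_self v, cn_singleton v⟩
          · rw [huv]; exact mem_singleton_self v
        exact (eq_of_subset_of_card_le (singleton_subset_iff.mpr h4) hle).symm
      rw [hsing] at h
      have hsub : D.filter (fun w => G.Adj v w) ⊆ {u'} := by
        intro w hw
        rw [mem_filter] at hw
        rw [mem_singleton]
        have hvL : v ∈ L u' := by rw [← h]; exact mem_singleton_self v
        have hwL : w ∉ L u' := by
          rw [← h, mem_singleton]
          exact hw.2.ne.symm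
        by_cases hu'v : u' = v
        · exfalso
          apply hwL
          rw [hu'v, hLv]
          exact hw.1
        · exact hLout u' hu'v v hvL w hw.1 hwL hw.2
      have := card_le_card hsub
      have := hdeg v hv
      simp at *
      omega
    · -- `u` has at most one neighbour in `P u`
      have huP : u ∈ P u := (hP1 u hu).2
      have hcard : 2 ≤ (P u).card := by
        have : ({u, v} : Finset V) ⊆ P u := by
          intro x hx
          simp only [mem_insert, mem_singleton] at hx
          rcases hx with rfl | rfl <;> assumption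
        calc 2 = ({u, v} : Finset V).card := (card_pair huv).symm
          _ ≤ _ := card_le_card this
      obtain ⟨z1, hz1, hz1v, hcn1⟩ := h5.exists_erase h4 hcard
      have ez1 := hPmin u hu z1 hz1 hz1v hcn1
      subst ez1
      have hone : ((P z1).filter (fun w => G.Adj z1 w)).card ≤ 1 := by
        rw [card_le_one]
        intro p hp q hq
        rw [mem_filter] at hp hq
        by_contra hpq
        have hpC : p ∈ (P z1).erase z1 := mem_erase.mpr ⟨hp.2.ne.symm, hp.1⟩
        have hqC : q ∈ (P z1).erase z1 := mem_erase.mpr ⟨hq.2.ne.symm, hq.1⟩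
        have hvC : v ∈ (P z1).erase z1 := mem_erase.mpr ⟨fun h => huv h.symm, h4⟩
        have hc2 : 2 ≤ ((P z1).erase z1).card := by
          have : ({p, q} : Finset V) ⊆ (P z1).erase z1 := by
            intro x hx
            simp only [mem_insert, mem_singleton] at hx
            rcases hx with rfl | rfl <;> assumption
          calc 2 = ({p, q} : Finset V).card := (card_pair hpq).symm
            _ ≤ _ := card_le_card this
        obtain ⟨z, hz, hzv, hcn⟩ := hcn1.exists_erase hvC hc2
        -- one of `p`, `q` survives
        obtain ⟨r, hr, hrz, hadj⟩ : ∃ r ∈ (P z1).erase z1, r ≠ z ∧ G.Adj z1 r := by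
          by_cases hpz : p = z
          · exact ⟨q, hqC, fun h => hpq (hpz.trans h.symm), hq.2⟩
          · exact ⟨p, hpC, hpz, hp.2⟩
        have hcn3 : Cn G (Insert.insert z1 (((P z1).erase z1).erase z)) :=
          hcn.insert (mem_erase.mpr ⟨hrz, hr⟩) hadj.symm
        have hm : Insert.insert z1 (((P z1).erase z1).erase z) ∈ CS G D v := by
          rw [mem_CS]
          refine ⟨?_, ?_, hcn3⟩
          · exact insert_subset hu
              (((erase_subset _ _).trans (erase_subset _ _)).trans h3)
          · exact mem_insert_of_mem (mem_erase.mpr ⟨fun h => hzv h.symm, hvC⟩)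
        have hle := hP2 z1 hu _ hm (mem_insert_self _ _)
        have hc4 : (Insert.insert z1 (((P z1).erase z1).erase z)).card < (P z1).card := by
          have e1 := card_insert_le z1 (((P z1).erase z1).erase z)
          have e2 := card_erase_of_mem hz
          have e3 := card_erase_of_mem hz1
          omega
        omega
      by_cases hu'v : u' = v
      · -- `P u = D`
        rw [hu'v, hLv] at h
        rw [h] at hone
        have := hdeg z1 hu
        omega
      · -- `P u` is a component of `D` minus `u'`
        have hnb : D.filter (fun w => G.Adj z1 w) ⊆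
            Insert.insert u' ((P z1).filter (fun w => G.Adj z1 w)) := by
          intro w hw
          rw [mem_filter] at hw
          rw [mem_insert, mem_filter]
          by_cases hwP : w ∈ P z1
          · exact Or.inr ⟨hwP, hw.2⟩
          · left
            rw [h] at huP hwP
            exact hLout u' hu'v z1 huP w hw.1 hwP hw.2
        have hc1 := card_le_card hnb
        have hc2 := card_insert_le u' ((P z1).filter (fun w => G.Adj z1 w))
        rcases hcond with hcond | hcond
        · have := hcond z1 hu huv
          omega
        · apply hcond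
          -- `z1` is adjacent to `u'`
          have hadj : G.Adj z1 u' := by
            by_contra hna
            have hnb2 : D.filter (fun w => G.Adj z1 w) ⊆
                (P z1).filter (fun w => G.Adj z1 w) := by
              intro w hw
              have hw2 := hnb hw
              rw [mem_insert] at hw2
              rcases hw2 with hw2 | hw2
              · exfalso
                rw [mem_filter] at hw
                exact hna (hw2 ▸ hw.2)
              · exact hw2
            have := card_le_card hnb2
            have := hdeg z1 hu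
            omega
          -- `P u` minus `v` is connected
          obtain ⟨z, hz, hzu, hcnz⟩ := h5.exists_erase huP hcard
          have hzv : z = v := by
            by_contra hzv
            exact hzu (hPmin z1 hu z hz hzv hcnz)
          subst hzv
          -- the component of `u` in `D` minus `v`
          have huE : z1 ∈ D.erase z := mem_erase.mpr ⟨huv, hu⟩
          have hEcn : Cn G (Comp G (D.erase z) z1) := Comp_cn huE
          have hPE : (P z1).erase z ⊆ Comp G (D.erase z) z1 := by
            apply subset_Comp
            · exact erase_subset_erase _ h3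
            · exact mem_erase.mpr ⟨huv, huP⟩
            · exact hcnz
          have hu'E : u' ∈ Comp G (D.erase z) z1 :=
            Comp_cl z1 (self_mem_Comp huE) u' (mem_erase.mpr ⟨hu'v, hu'⟩) hadj
          have hins : Insert.insert z (Comp G (D.erase z) z1) = D := by
            apply hD.2
            · exact insert_subset hv (Comp_subset.trans (erase_subset _ _))
            · exact insert_nonempty _ _
            · intro a ha b hb hab
              rw [mem_insert] at ha ⊢
              by_cases hbz : b = z
              · exact Or.inl hbz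
              · right
                rcases ha with ha | ha
                · -- neighbours of `v`
                  subst ha
                  by_cases hbP : b ∈ P z1
                  · exact hPE (mem_erase.mpr ⟨hbz, hbP⟩)
                  · have : b = u' := by
                      rw [h] at hz hbP
                      exact hLout u' hu'v a hz b hb hbP hab
                    rw [this]
                    exact hu'E
                · exact Comp_cl a ha b (mem_erase.mpr ⟨hbz, hb⟩) hab
          have : D.erase z = Comp G (D.erase z) z1 := by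
            apply Subset.antisymm _ Comp_subset
            intro x hx
            rw [mem_erase] at hx
            have hx2 := hx.2
            rw [← hins, mem_insert] at hx2
            exact hx2.resolve_left hx.1
          rw [this]
          exact hEcn
  -- conclusion
  have hsub : D.image L ∪ D.image P ⊆ CS G D v := by
    intro C hC
    rw [mem_union, mem_image, mem_image] at hC
    rcases hC with ⟨u, hu, rfl⟩ | ⟨u, hu, rfl⟩
    · exact hLmem u hu
    · exact hPmem u hu
  have hdis : Disjoint (D.image L) (D.image P) := by
    rw [disjoint_left]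
    intro C hC1 hC2
    rw [mem_image] at hC1 hC2
    obtain ⟨u', hu', h1⟩ := hC1
    obtain ⟨u, hu, h2⟩ := hC2
    exact hdisj u hu u' hu' (h2.trans h1.symm)
  have := card_le_card hsub
  rw [card_union_of_disjoint hdis, card_image_of_injOn hLinj, card_image_of_injOn hPinj] at this
  omega

/-- One outside neighbour: enough connected subsets meeting the attachment set. -/
theorem one_nbr {D : Finset V} (hD : Cn G D) (A : V → Prop)
    (hdeg : ∀ u ∈ D, 2 ≤ (D.filter (fun w => G.Adj u w)).card)
    (hdeg3 : ∀ u ∈ D, ¬ A u → 3 ≤ (D.filter (fun w => G.Adj u w)).card)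
    {v : V} (hv : v ∈ D) (hvA : A v) :
    2 * D.card ≤ (D.powerset.filter (fun C => Cn G C ∧ ∃ a ∈ C, A a)).card := by
  by_cases hb : Cn G (D.erase v) ∧ ∃ w ∈ D, w ≠ v ∧ A w
  · obtain ⟨hcn, w, hw, hwv, hwA⟩ := hb
    obtain ⟨p, hp, q, hq, hpq⟩ := one_lt_card.mp (lt_of_lt_of_le Nat.one_lt_two (hdeg v hv))
    rw [mem_filter] at hp hq
    have h1 := card_lt_CS hD hv hp.1 hq.1 hpq hp.2 hq.2
    have hwE : w ∈ D.erase v := mem_erase.mpr ⟨hwv, hw⟩
    have h2 := card_le_CS hcn hwE
    rw [card_erase_of_mem hv] at h2
    have hdis : Disjoint (CS G D v) (CS G (D.erase v) w) := by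
      rw [disjoint_left]
      intro C h3 h4
      rw [mem_CS] at h3 h4
      exact notMem_erase v D (h4.1 h3.2.1)
    have hsub : CS G D v ∪ CS G (D.erase v) w ⊆
        D.powerset.filter (fun C => Cn G C ∧ ∃ a ∈ C, A a) := by
      intro C hC
      rw [mem_union, mem_CS, mem_CS] at hC
      rw [mem_filter, mem_powerset]
      rcases hC with ⟨h3, h4, h5⟩ | ⟨h3, h4, h5⟩
      · exact ⟨h3, h5, v, h4, hvA⟩
      · exact ⟨h3.trans (erase_subset _ _), h5, w, h4, hwA⟩
    have h3 := card_le_card hsub
    rw [card_union_of_disjoint hdis] at h3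
    omega
  · have h1 : 2 * D.card ≤ (CS G D v).card := by
      apply two_families hD hv hdeg
      by_cases hcn : Cn G (D.erase v)
      · left
        intro u hu huv
        apply hdeg3 u hu
        intro hA
        exact hb ⟨hcn, u, hu, huv, hA⟩
      · exact Or.inr hcn
    have hsub : CS G D v ⊆ D.powerset.filter (fun C => Cn G C ∧ ∃ a ∈ C, A a) := by
      intro C hC
      rw [mem_CS] at hC
      rw [mem_filter, mem_powerset]
      exact ⟨hC.1, hC.2.2, v, hC.2.1, hvA⟩
    exact h1.trans (card_le_card hsub)

/-- Pairs (connected subset of `R`, vertex of `B` adjacent to it). -/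
noncomputable def PR (G : SimpleGraph V) (R B : Finset V) : Finset (Finset V × V) :=
  (R.powerset ×ˢ B).filter (fun p => Cn G p.1 ∧ ∃ a ∈ p.1, G.Adj a p.2)

omit [DecidableEq V] in
theorem mem_PR {R B : Finset V} {p : Finset V × V} :
    p ∈ PR G R B ↔ p.1 ⊆ R ∧ p.2 ∈ B ∧ Cn G p.1 ∧ ∃ a ∈ p.1, G.Adj a p.2 := by
  unfold PR
  rw [mem_filter, mem_product, mem_powerset]
  tauto

/-- The inequality for one component. -/
theorem component_bound {D B : Finset V} (hD : Cn G D)
    (hdeg : ∀ u ∈ D, 3 ≤ ((D ∪ B).filter (fun w => G.Adj u w)).card)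
    (hne : ∃ a ∈ D, ∃ x ∈ B, G.Adj a x) :
    2 * D.card ≤ (PR G D B).card := by
  obtain ⟨a, ha, x, hx, hax⟩ := hne
  by_cases h2 : ∃ b ∈ D, ∃ y ∈ B, y ≠ x ∧ G.Adj b y
  · obtain ⟨b, hb, y, hy, hyx, hby⟩ := h2
    have hsub : (CS G D a).image (fun C => (C, x)) ∪ (CS G D b).image (fun C => (C, y)) ⊆
        PR G D B := by
      intro p hp
      rw [mem_union, mem_image, mem_image] at hp
      rcases hp with ⟨C, hC, rfl⟩ | ⟨C, hC, rfl⟩
      · rw [mem_CS] at hC
        exact mem_PR.mpr ⟨hC.1, hx, hC.2.2, a, hC.2.1, hax⟩
      · rw [mem_CS] at hC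
        exact mem_PR.mpr ⟨hC.1, hy, hC.2.2, b, hC.2.1, hby⟩
    have hdis : Disjoint ((CS G D a).image (fun C => (C, x)))
        ((CS G D b).image (fun C => (C, y))) := by
      rw [disjoint_left]
      intro p hp1 hp2
      rw [mem_image] at hp1 hp2
      obtain ⟨C, _, rfl⟩ := hp1
      obtain ⟨C', _, h⟩ := hp2
      exact hyx (congrArg Prod.snd h)
    have h3 := card_le_card hsub
    rw [card_union_of_disjoint hdis, card_image_of_injective _ (Prod.mk_left_injective x),
      card_image_of_injective _ (Prod.mk_left_injective y)] at h3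
    have h4 := card_le_CS hD ha
    have h5 := card_le_CS hD hb
    omega
  · push Not at h2
    have hsub1 : ∀ u ∈ D, (D ∪ B).filter (fun w => G.Adj u w) ⊆
        Insert.insert x (D.filter (fun w => G.Adj u w)) := by
      intro u hu w hw
      rw [mem_filter, mem_union] at hw
      rw [mem_insert, mem_filter]
      rcases hw.1 with h | h
      · exact Or.inr ⟨h, hw.2⟩
      · left
        by_contra hwx
        exact h2 u hu w h hwx hw.2
    have h3 : 2 * D.card ≤ (D.powerset.filter (fun C => Cn G C ∧ ∃ a ∈ C, G.Adj a x)).card := by
      apply one_nbr hD (fun a => G.Adj a x) _ _ ha hax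
      · intro u hu
        have e1 := card_le_card (hsub1 u hu)
        have e2 := card_insert_le x (D.filter (fun w => G.Adj u w))
        have e3 := hdeg u hu
        omega
      · intro u hu hnA
        have hsub2 : (D ∪ B).filter (fun w => G.Adj u w) ⊆ D.filter (fun w => G.Adj u w) := by
          intro w hw
          have hw2 := hsub1 u hu hw
          rw [mem_insert] at hw2
          rcases hw2 with h | h
          · exfalso
            rw [mem_filter] at hw
            exact hnA (h ▸ hw.2)
          · exact h
        exact (hdeg u hu).trans (card_le_card hsub2)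
    have hsub : (D.powerset.filter (fun C => Cn G C ∧ ∃ a ∈ C, G.Adj a x)).image
        (fun C => (C, x)) ⊆ PR G D B := by
      intro p hp
      rw [mem_image] at hp
      obtain ⟨C, hC, rfl⟩ := hp
      rw [mem_filter, mem_powerset] at hC
      exact mem_PR.mpr ⟨hC.1, hx, hC.2.1, hC.2.2⟩
    have h4 := card_le_card hsub
    rw [card_image_of_injective _ (Prod.mk_left_injective x)] at h4
    omega

/-- The inequality for a whole set whose outside neighbours lie in `B`. -/
theorem local_bound {B : Finset V} : ∀ (m : ℕ) (R : Finset V), R.card = m →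
    (∀ a ∈ R, ∀ b, G.Adj a b → b ∈ R ∨ b ∈ B) →
    (∀ T ⊆ R, T.Nonempty → Cl G T R → ∃ a ∈ T, ∃ x ∈ B, G.Adj a x) →
    (∀ u ∈ R, 3 ≤ ((R ∪ B).filter (fun w => G.Adj u w)).card) →
    2 * R.card ≤ (PR G R B).card := by
  intro m
  induction m using Nat.strong_induction_on with
  | _ m ih =>
    intro R hRm hR1 hR2 hR3
    rcases R.eq_empty_or_nonempty with h0 | ⟨v, hv⟩
    · simp [h0]
    · have hDsub : Comp G R v ⊆ R := Comp_subset
      have hvD : v ∈ Comp G R v := self_mem_Comp hv
      have hcl' : ∀ a ∈ R \ Comp G R v, ∀ b ∈ R, G.Adj a b → b ∈ R \ Comp G R v := by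
        intro a ha b hb hab
        rw [mem_sdiff] at ha ⊢
        refine ⟨hb, ?_⟩
        intro hbD
        exact ha.2 (Comp_cl b hbD a ha.1 hab.symm)
      have h1 : 2 * (Comp G R v).card ≤ (PR G (Comp G R v) B).card := by
        apply component_bound (Comp_cn hv)
        · intro u hu
          have hsub : (R ∪ B).filter (fun w => G.Adj u w) ⊆
              (Comp G R v ∪ B).filter (fun w => G.Adj u w) := by
            intro w hw
            rw [mem_filter, mem_union] at hw ⊢
            refine ⟨?_, hw.2⟩
            rcases hw.1 with h | h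
            · exact Or.inl (Comp_cl u hu w h hw.2)
            · exact Or.inr h
          exact (hR3 u (hDsub hu)).trans (card_le_card hsub)
        · exact hR2 _ hDsub ⟨v, hvD⟩ Comp_cl
      have hcard : (R \ Comp G R v).card < m := by
        rw [← hRm]
        apply card_lt_card
        rw [ssubset_iff_of_subset sdiff_subset]
        exact ⟨v, hv, fun h => (mem_sdiff.mp h).2 hvD⟩
      have h2 : 2 * (R \ Comp G R v).card ≤ (PR G (R \ Comp G R v) B).card := by
        apply ih _ hcard _ rfl
        · intro a ha b hab
          rcases hR1 a (mem_sdiff.mp ha).1 b hab with h | h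
          · exact Or.inl (hcl' a ha b h hab)
          · exact Or.inr h
        · intro T hT hne hcl
          apply hR2 T (hT.trans sdiff_subset) hne
          intro a ha b hb hab
          exact hcl a ha b (hcl' a (hT ha) b hb hab) hab
        · intro u hu
          have hsub : (R ∪ B).filter (fun w => G.Adj u w) ⊆
              (R \ Comp G R v ∪ B).filter (fun w => G.Adj u w) := by
            intro w hw
            rw [mem_filter, mem_union] at hw ⊢
            refine ⟨?_, hw.2⟩
            rcases hw.1 with h | h
            · exact Or.inl (hcl' u hu w h hw.2)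
            · exact Or.inr h
          exact (hR3 u (mem_sdiff.mp hu).1).trans (card_le_card hsub)
      have hdis : Disjoint (PR G (Comp G R v) B) (PR G (R \ Comp G R v) B) := by
        rw [disjoint_left]
        intro p hp1 hp2
        rw [mem_PR] at hp1 hp2
        obtain ⟨x, hx⟩ := hp1.2.2.1.1
        exact (mem_sdiff.mp (hp2.1 hx)).2 (hp1.1 hx)
      have hsub : PR G (Comp G R v) B ∪ PR G (R \ Comp G R v) B ⊆ PR G R B := by
        intro p hp
        rw [mem_union, mem_PR, mem_PR] at hp
        rw [mem_PR]
        rcases hp with h | h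
        · exact ⟨h.1.trans hDsub, h.2⟩
        · exact ⟨h.1.trans sdiff_subset, h.2⟩
      have h3 := card_le_card hsub
      rw [card_union_of_disjoint hdis] at h3
      have h4 : (Comp G R v).card + (R \ Comp G R v).card = R.card := by
        rw [add_comm]
        exact card_sdiff_add_card_eq_card hDsub
      omega

end Pool.Agent.Y433
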